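import Pool.Agent.R122.FF.Lim

set_option autoImplicit false

/-!
# The identity tree of the fixed point forest has asymptotic density `1/n`

Letters and positions are numbered `0, …, n-1`, so a permutation `π` is the word
`π 0, π 1, …, π (n-1)`, and the true fixed points are the fixed points different from `0`.

Main idea.  Put `0` at position `n-1-d`, `d ≥ 1`.  A word reaches the identity only if the letters
inserted behind `0` come in decreasing order.  For the `w` largest letters this is decided by an
autonomous queue process, and adding the next letter `y` to a surviving order of the `w` letters, at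
least one of the `w + 1` places of `y` makes the next stage fail.  So only a fraction
`≤ (d+1)/w` of the orders survives, for every `w`.  Dominated convergence over `d` finishes.
-/

namespace Pool.Agent.Results.MP_79f629_co.LimitOne

open Nat Filter Topology

/-- `π'` arises from `π` by bumping a true fixed point `i ≠ 0` of `π`: the letter `i` is deleted
from position `i` and inserted at the front, i.e. `π'` is the word
`i, π 0, π 1, …, π (i-1), π (i+1), …, π (n-1)`. -/
def IsBump {n : ℕ} (π π' : Equiv.Perm (Fin n)) : Prop :=
  ∃ i : Fin n, (i : ℕ) ≠ 0 ∧ π i = i ∧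
    (∀ j : Fin n, (j : ℕ) = 0 → π' j = i) ∧
    (∀ j k : Fin n, (j : ℕ) = (k : ℕ) + 1 → j ≤ i → π' j = π k) ∧
    (∀ j : Fin n, i < j → π' j = π j)

/-- The fixed point forest `F_n`: `π` and `π'` are adjacent when one arises from the other by
bumping a true fixed point. -/
def fixedPointForest (n : ℕ) : SimpleGraph (Equiv.Perm (Fin n)) := SimpleGraph.fromRel IsBump

/-- `T_n`: the component of `F_n` that contains the identity. -/
def idTree (n : ℕ) : Set (Equiv.Perm (Fin n)) := {π | (fixedPointForest n).Reachable 1 π}

/-- **McKinley's conjecture holds**: `|T_n| / (n-1)! → 1`, and `n ⬝ P[π_n ∈ T_n] → 1` for `π_n`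
uniform on the `n!` permutations. -/
theorem result :
    Tendsto (fun n : ℕ => ((idTree n).ncard : ℝ) / ((n - 1)! : ℝ)) atTop (𝓝 1) ∧
    Tendsto (fun n : ℕ => (n : ℝ) * (((idTree n).ncard : ℝ) / (n ! : ℝ))) atTop (𝓝 1) := by
  have h1 : Tendsto (fun n : ℕ => ((idTree n).ncard : ℝ) / ((n - 1)! : ℝ)) atTop (𝓝 1) := by
    rw [← tendsto_add_atTop_iff_nat 1]
    exact R122.FF.main_limit
  refine ⟨h1, h1.congr' ?_⟩
  filter_upwards [eventually_ge_atTop 1] with n hn
  obtain ⟨m, rfl⟩ : ∃ m, n = m + 1 := ⟨n - 1, by omega⟩
  rw [Nat.add_sub_cancel, Nat.factorial_succ, Nat.cast_mul]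
  have h2 : ((m + 1 : ℕ) : ℝ) ≠ 0 := by positivity
  have h3 : (m ! : ℝ) ≠ 0 := by positivity
  field_simp

end Pool.Agent.Results.MP_79f629_co.LimitOne
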